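import Mathlib
import Pool.Agent.H932R3.Finals

set_option autoImplicit false

/-!
# Non-speciality for all multiplicities, up to relative error `n ^ -k`

For every `k` there is an `N` such that for all `n ≥ N`, ALL multiplicities `w 1, …, w n` and all
`d > 0` with `√n d ≤ (1 - n ^ (-k)) ∑ w i`, or with `d ≥ (1 + n ^ (-k)) √n w i + √n` for all `i`,
the linear system of forms of degree `d` with multiplicities `w i` at `n` general points of the
complex projective plane has the expected dimension.
-/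

namespace Pool.Agent.Results.MP_6b2d39_ag.EveryMultiplicityVector

theorem result (k : ℕ) : ∃ N : ℕ, ∀ n : ℕ, N ≤ n → ∀ w : Fin n → ℕ,
    ∃ F : MvPolynomial (Fin n × Fin 2) ℂ, F ≠ 0 ∧
      ∀ P : Fin n → Fin 2 → ℂ,
        MvPolynomial.eval (fun ij : Fin n × Fin 2 => P ij.1 ij.2) F ≠ 0 →
        ∀ d : ℕ, 0 < d →
          (Real.sqrt n * d ≤ (1 - 1 / (n : ℝ) ^ k) * ∑ i, (w i : ℝ) ∨
            ∀ i, (1 + 1 / (n : ℝ) ^ k) * (Real.sqrt n * w i) + Real.sqrt n ≤ d) →
          Module.finrank ℂ
            ↥(MvPolynomial.homogeneousSubmodule (Fin 3) ℂ d ⊓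
              Submodule.restrictScalars ℂ
                (⨅ i : Fin n,
                  (Ideal.span
                    ({MvPolynomial.X 0 - MvPolynomial.C (P i 0) * MvPolynomial.X 2,
                      MvPolynomial.X 1 - MvPolynomial.C (P i 1) * MvPolynomial.X 2} :
                      Set (MvPolynomial (Fin 3) ℂ))) ^ (w i)))
          = Nat.choose (d + 2) 2 - ∑ i, Nat.choose (w i + 1) 2 := by
  obtain ⟨N, hN, h⟩ := H932R3.wedge_exp k
  refine ⟨N, fun n hn w => ?_⟩
  obtain ⟨F, hF, hF'⟩ := h ℂ n hn w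
  refine ⟨F.map (algebraMap ℚ ℂ), H932R3.map_ne_zero_of hF, fun P hP d hd0 hd => ?_⟩
  rw [MvPolynomial.eval_map] at hP
  exact hF' P hP d hd0 hd

end Pool.Agent.Results.MP_6b2d39_ag.EveryMultiplicityVector
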