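import Mathlib
import Pool.Agent.H932R6.FinalR

set_option autoImplicit false

/-!
# Multiplicities differing by at most one, up to `n ^ k`: non-special in all degrees but one

For every `k` and `ε > 0` there is an `N` such that for `n ≥ N` general points of the complex
projective plane with multiplicities `w i ∈ {m, m + 1}`, `1 ≤ m ≤ n ^ k`, the linear system of
forms of degree `d` with these multiplicities is non-special for every `d` with
`|2 d + 3 - √n - 2 (∑ w i) / √n| ≥ ε`.
-/

namespace Pool.Agent.Results.MP_6b2d39_ag.NonspecialAllButOne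

theorem result (k : ℕ) (ε : ℝ) (hε : 0 < ε) : ∃ N : ℕ, ∀ n : ℕ, N ≤ n → ∀ m : ℕ, 0 < m → m ≤ n ^ k →
    ∀ w : Fin n → ℕ, (∀ i, w i = m ∨ w i = m + 1) →
    ∃ F : MvPolynomial (Fin n × Fin 2) ℂ, F ≠ 0 ∧
      ∀ P : Fin n → Fin 2 → ℂ,
        MvPolynomial.eval (fun ij : Fin n × Fin 2 => P ij.1 ij.2) F ≠ 0 →
        ∀ d : ℕ, ε ≤ |2 * (d : ℝ) + 3 - Real.sqrt n - 2 * (∑ i, (w i : ℝ)) / Real.sqrt n| →
          Module.finrank ℂ
            ↥(MvPolynomial.homogeneousSubmodule (Fin 3) ℂ d ⊓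
              Submodule.restrictScalars ℂ
                (⨅ i : Fin n,
                  (Ideal.span
                    ({MvPolynomial.X 0 - MvPolynomial.C (P i 0) * MvPolynomial.X 2,
                      MvPolynomial.X 1 - MvPolynomial.C (P i 1) * MvPolynomial.X 2} :
                      Set (MvPolynomial (Fin 3) ℂ))) ^ (w i)))
          = Nat.choose (d + 2) 2 - ∑ i, Nat.choose (w i + 1) 2 := by
  obtain ⟨N, hN, h⟩ := H932R6.exists_data (k + 1) hε
  refine ⟨N, fun n hn m hm hmk w hw => ?_⟩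
  obtain ⟨u, v, δ, σ, hD⟩ := h n hn
  obtain ⟨F, hF, hF'⟩ := H932R6.win_expR (L := ℂ) hD (by omega) hm
    (by
      have h2 : 1 ≤ n ^ k := Nat.one_le_pow _ _ (by omega)
      have h3 : n ^ (k + 1) = n ^ k * n := pow_succ n k
      have h4 : n ^ k * 2 ≤ n ^ k * n := Nat.mul_le_mul_left _ (by omega)
      omega) hw
  refine ⟨F.map (algebraMap ℚ ℂ), H932R3.map_ne_zero_of hF, fun P hP d hd => ?_⟩
  rw [MvPolynomial.eval_map] at hP
  exact hF' P hP d hd

end Pool.Agent.Results.MP_6b2d39_ag.NonspecialAllButOne
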